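import Pool.Agent.H84.SL.Targets
import Pool.Agent.H25.SM.RIE

/-!
# Row GZ1 of the board slg_modules: many functions with poles bounded by the poles of `t`
-/

set_option autoImplicit false

namespace Pool.Agent.H78.SL

open SC Pool.Agent.H84.SM Pool.Agent.H27.LV Pool.Agent.H84.SL

theorem pf_GZ1 (hBAD : T_BAD) (hREG : T_REG) (hDRP : T_DRP) : T_GZ1 := by
  intro k K _ _ _ _ _ _ htr D hD hcan t ht
  classical
  have hfd := Pool.Agent.H36.SC.fin_of_transc htr ht
  obtain ⟨h5a, -, h5c⟩ := Pool.Agent.H76.KN.v5 k K t ht hfd
  obtain ⟨n, b, r, hb⟩ := hBAD k K htr t (IntermediateField.adjoin k {t}) ht rfl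
  have hr : ∀ j, r j ≤ 1 := by
    intro j
    by_contra hcon
    have h1 := hREG k K htr D hD t (IntermediateField.adjoin k {t}) ht rfl n b r hb j (by omega)
    omega
  have hn : Module.finrank (IntermediateField.adjoin k {t}) K = n := by
    rw [Module.finrank_eq_card_basis b, Fintype.card_fin]
  have hpolfin : {v : DV k K | pol k t v ≠ 0}.Finite := by
    refine h5a.subset fun v hv => ?_
    simp only [Set.mem_ofPred_eq, pol] at hv ⊢
    by_contra h
    exact hv (max_eq_left (by omega))
  have hsum : ∑ᶠ v : DV k K, pol k t v = n := by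
    rw [← hn, ← h5c]
    refine finsum_congr fun v => ?_
    rw [(rat k K htr v).1]
    simp [pol]
  have hn0 : 0 < n := by
    rw [← hn]
    exact Module.finrank_pos
  have ht0 : t ≠ 0 := by
    intro h
    apply ht
    rw [h]
    exact isAlgebraic_zero
  -- a pole of `t`
  obtain ⟨P, hP⟩ : ∃ P : DV k K, P.ord t < 0 := by
    by_contra hcon
    push Not at hcon
    have h1 : ∑ᶠ v : DV k K, pol k t v = 0 := by
      rw [finsum_congr (g := fun _ => 0)]
      · exact finsum_zero
      · intro v
        have := hcon v
        simp only [pol]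
        exact max_eq_left (by omega)
    rw [hsum] at h1
    omega
  -- an index with `r j = 0`
  obtain ⟨j0, hj0⟩ : ∃ j, r j = 0 := by
    by_contra hcon
    push Not at hcon
    have hr1 : ∀ j, r j = 1 := fun j => by
      have h1 := hr j
      have h2 := hcon j
      omega
    have hc : ∀ j, b.repr 1 j = 0 := by
      intro j
      by_contra hne
      have hne' : (algebraMap (IntermediateField.adjoin k {t}) K) (b.repr 1 j) ≠ 0 := by
        rw [Ne, map_eq_zero]
        exact hne
      have h1 : ∀ v : DV k K, 0 ≤ v.ord ((algebraMap (IntermediateField.adjoin k {t}) K)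
          (b.repr 1 j)) ∧ (v.ord t < 0 → 0 < v.ord ((algebraMap (IntermediateField.adjoin k {t}) K)
          (b.repr 1 j))) := by
        intro v
        by_cases hv : 0 ≤ v.ord t
        · have h2 := (hb.fin 1 (fun v _ => ge_one v) j v hv).resolve_left hne'
          exact ⟨h2, fun h3 => by omega⟩
        · push Not at hv
          have h2 := (hb.inf 1 (fun v _ => ge_one v) j v hv).resolve_left
            (mul_ne_zero hne' (pow_ne_zero _ ht0))
          rw [v.ord_mul' hne' (pow_ne_zero _ ht0), v.ord_pow, hr1 j] at h2
          push_cast at h2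
          constructor
          · omega
          · intro _
            omega
      have h2 := pfm k K htr ((algebraMap (IntermediateField.adjoin k {t}) K) (b.repr 1 j))
      have h3 : 0 < ∑ᶠ v : DV k K, v.ord ((algebraMap (IntermediateField.adjoin k {t}) K)
          (b.repr 1 j)) := by
        rw [finsum_eq_sum _ h2.1]
        have h4 := (h1 P).2 hP
        refine Finset.sum_pos' (fun v _ => (h1 v).1) ⟨P, ?_, h4⟩
        rw [Set.Finite.mem_toFinset, Function.mem_support]
        omega
      rw [h2.2] at h3
      exact lt_irrefl _ h3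
    have h1 : (1 : K) = 0 := by
      rw [← b.sum_repr 1]
      exact Finset.sum_eq_zero fun j _ => by rw [hc j, zero_smul]
    exact one_ne_zero h1
  -- the functions
  have hpol0 : ∀ v : DV k K, 0 ≤ pol k t v := fun v => le_max_left _ _
  have hpolt : ∀ v : DV k K, -(pol k t v) ≤ v.ord t := fun v => by
    have := le_max_right 0 (-(v.ord t))
    simp only [pol]
    omega
  have hbLE : ∀ j, b j ∈ LE k (pol k t) := by
    intro j v
    refine (hb.pl j v).mono ?_
    have h1 := hr j
    have h2 := hpol0 v
    have h3 : (r j : ℤ) ≤ 1 := by exact_mod_cast h1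
    have h4 : (r j : ℤ) * pol k t v ≤ 1 * pol k t v := mul_le_mul_of_nonneg_right h3 h2
    linarith
  have htLE : t * b j0 ∈ LE k (pol k t) := by
    intro v
    have h1 := (ge_of_ord v (x := t)).mul (hb.pl j0 v)
    refine h1.mono ?_
    have h2 := hpolt v
    rw [hj0]
    push_cast
    omega
  have hli := linearIndependent_smul (Pool.Agent.H25.SM.pow_li ht 2) b.linearIndependent
  obtain ⟨g, hg⟩ : ∃ g : Option (Fin n) → Fin 2 × Fin n, g = fun o => o.elim (1, j0) fun j => (0, j) :=
    ⟨_, rfl⟩
  have hginj : Function.Injective g := by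
    intro o o' h
    rw [hg] at h
    cases o with
    | none =>
      cases o' with
      | none => rfl
      | some j' => simp at h
    | some j =>
      cases o' with
      | none => simp at h
      | some j' => simpa using h
  have hli2 := hli.comp g hginj
  obtain ⟨hfin, -⟩ := hDRP k K htr (pol k t) hpolfin
  haveI := hfin
  have hle : Submodule.span k (Set.range ((fun p : Fin 2 × Fin n =>
      (⟨t, IntermediateField.mem_adjoin_simple_self k t⟩ : IntermediateField.adjoin k {t}) ^
        (p.1 : ℕ) • b p.2) ∘ g)) ≤ LE k (pol k t) := by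
    rw [Submodule.span_le]
    rintro _ ⟨o, rfl⟩
    rw [hg]
    cases o with
    | none =>
      simp only [Function.comp_apply, Option.elim]
      simp only [Fin.val_one, pow_one]
      exact htLE
    | some j =>
      simp only [Function.comp_apply, Option.elim]
      simp only [Fin.val_zero, pow_zero, one_smul]
      exact hbLE j
  have h1 := Submodule.finrank_mono hle
  rw [finrank_span_eq_card hli2, Fintype.card_option, Fintype.card_fin] at h1
  rw [hsum]
  exact_mod_cast h1

end Pool.Agent.H78.SL
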